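import Pool.Agent.H51.MO.TargetsA

/-!
# MP_c62aed_lc, board mo_modules, row A_CNT: the number of small partial assignments
-/

set_option autoImplicit false

namespace Pool.Agent.H85.MO

open Finset Pool.Agent.H51.MO

open Classical in
theorem pf_ACNT : S_ACNT := by
  intro Om _ m w
  induction w with
  | zero =>
    rw [pow_zero]
    refine Finset.card_le_one.2 ?_
    intro a ha b hb
    rw [mem_filter, Nat.le_zero, card_eq_zero, filter_eq_empty_iff] at ha hb
    funext i
    have h1 := not_not.1 (ha.2 (mem_univ i))
    have h2 := not_not.1 (hb.2 (mem_univ i))
    rw [h1, h2]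
  | succ w ih =>
    set Sw : Finset (Fin m → Option Om) :=
      univ.filter (fun ρ : Fin m → Option Om => (univ.filter (fun i => ρ i ≠ none)).card ≤ w)
      with hSw
    let g : (Fin m → Option Om) × Option (Fin m × Om) → (Fin m → Option Om) := fun p =>
      match p.2 with
      | none => p.1
      | some q => Function.update p.1 q.1 (some q.2)
    have hsub : univ.filter (fun ρ : Fin m → Option Om =>
        (univ.filter (fun i => ρ i ≠ none)).card ≤ w + 1) ⊆
        (Sw ×ˢ (univ : Finset (Option (Fin m × Om)))).image g := by
      intro ρ hρ
      rw [mem_filter] at hρ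
      rw [mem_image]
      by_cases h : (univ.filter (fun i => ρ i ≠ none)).card ≤ w
      · exact ⟨(ρ, none), mem_product.2 ⟨by rw [hSw, mem_filter]; exact ⟨mem_univ _, h⟩,
          mem_univ _⟩, rfl⟩
      · have h1 : (univ.filter (fun i => ρ i ≠ none)).card = w + 1 := by omega
        have h2 : (univ.filter (fun i => ρ i ≠ none)).Nonempty := by
          rw [← card_pos]; omega
        obtain ⟨i, hi⟩ := h2
        have hi' : ρ i ≠ none := (mem_filter.1 hi).2
        obtain ⟨v, hv⟩ := Option.ne_none_iff_exists'.1 hi'
        refine ⟨(Function.update ρ i none, some (i, v)), mem_product.2 ⟨?_, mem_univ _⟩, ?_⟩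
        · rw [hSw, mem_filter]
          refine ⟨mem_univ _, ?_⟩
          have h3 : univ.filter (fun j => Function.update ρ i none j ≠ none) =
              (univ.filter (fun j => ρ j ≠ none)).erase i := by
            ext j
            rw [mem_filter, mem_erase, mem_filter]
            by_cases hj : j = i
            · subst hj
              simp
            · simp [hj]
          show (univ.filter (fun j => Function.update ρ i none j ≠ none)).card ≤ w
          rw [h3, card_erase_of_mem hi, h1]
          omega
        · show Function.update (Function.update ρ i none) i (some v) = ρ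
          rw [Function.update_idem, ← hv, Function.update_eq_self]
    calc _ ≤ ((Sw ×ˢ (univ : Finset (Option (Fin m × Om)))).image g).card := card_le_card hsub
      _ ≤ (Sw ×ˢ (univ : Finset (Option (Fin m × Om)))).card := card_image_le
      _ = Sw.card * (1 + m * Fintype.card Om) := by
          rw [card_product, card_univ, Fintype.card_option, Fintype.card_prod, Fintype.card_fin,
            add_comm]
      _ ≤ (1 + m * Fintype.card Om) ^ w * (1 + m * Fintype.card Om) :=
          Nat.mul_le_mul_right _ ih
      _ = _ := (pow_succ _ _).symm

end Pool.Agent.H85.MO
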